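import Mathlib

set_option autoImplicit false

/-! The matroid intersection theorem, for rank functions on finite sets. -/

namespace Pool.Agent.H478R3.Borsuk

open Finset

variable {α : Type} [DecidableEq α]

structure IsRF (r : Finset α → ℕ) : Prop where
  empty : r ∅ = 0
  mono : ∀ A B, A ⊆ B → r A ≤ r B
  ins : ∀ e A, r (insert e A) ≤ r A + 1
  sub : ∀ A B, r (A ∪ B) + r (A ∩ B) ≤ r A + r B

theorem IsRF.zero {r : Finset α → ℕ} (h : IsRF r) (X : Finset α) (hX : ∀ e ∈ X, r {e} = 0) :
    r X = 0 := by
  induction X using Finset.induction_on with
  | empty => exact h.empty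
  | insert e X he ih =>
    have h1 := ih (fun x hx => hX x (mem_insert_of_mem hx))
    have h2 := h.sub {e} X
    have h3 := hX e (mem_insert_self e X)
    rw [insert_eq]
    omega

theorem IsRF.pos {r : Finset α → ℕ} (h : IsRF r) (e : α) (he : r {e} = 1) (X : Finset α) :
    1 ≤ r (insert e X) := by
  rw [← he]
  exact h.mono _ _ (by simp)

theorem IsRF.contract {r : Finset α → ℕ} (h : IsRF r) (e : α) (he : r {e} = 1) :
    IsRF (fun X => r (insert e X) - 1) where
  empty := by
    show r (insert e ∅) - 1 = 0
    rw [insert_empty_eq, he]
  mono := by
    intro A B hAB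
    have := h.mono _ _ (insert_subset_insert e hAB)
    show r (insert e A) - 1 ≤ r (insert e B) - 1
    omega
  ins := by
    intro x A
    have h1 := h.ins x (insert e A)
    have h2 := h.pos e he A
    show r (insert e (insert x A)) - 1 ≤ r (insert e A) - 1 + 1
    rw [insert_comm]
    omega
  sub := by
    intro A B
    have h1 := h.sub (insert e A) (insert e B)
    have h2 := h.pos e he (A ∪ B)
    have h3 := h.pos e he (A ∩ B)
    have h4 := h.pos e he A
    have h5 := h.pos e he B
    rw [← insert_inter_distrib, ← insert_union_distrib] at h1
    show r (insert e (A ∪ B)) - 1 + (r (insert e (A ∩ B)) - 1) ≤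
      r (insert e A) - 1 + (r (insert e B) - 1)
    omega

theorem inter : ∀ (m : ℕ) (E : Finset α) (r1 r2 : Finset α → ℕ), E.card = m → IsRF r1 → IsRF r2 →
    ∀ k : ℕ, (∀ A ⊆ E, k ≤ r1 A + r2 (E \ A)) →
      ∃ I ⊆ E, r1 I = I.card ∧ r2 I = I.card ∧ k ≤ I.card := by
  intro m
  induction m with
  | zero =>
    intro E r1 r2 hE h1 h2 k hk
    rw [Finset.card_eq_zero] at hE
    subst hE
    refine ⟨∅, subset_refl _, h1.empty, h2.empty, ?_⟩
    have := hk ∅ (subset_refl _)
    rw [h1.empty, sdiff_self, Finset.bot_eq_empty, h2.empty] at this
    simpa using this
  | succ m ih =>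
    intro E r1 r2 hE h1 h2 k hk
    by_cases hex : ∃ e ∈ E, r1 {e} = 1 ∧ r2 {e} = 1
    · obtain ⟨e, heE, he1, he2⟩ := hex
      have hcard : (E.erase e).card = m := by
        rw [card_erase_of_mem heE, hE]
        rfl
      by_cases hd : ∀ A ⊆ E.erase e, k ≤ r1 A + r2 (E.erase e \ A)
      · obtain ⟨I, hI, hI1, hI2, hIk⟩ := ih (E.erase e) r1 r2 hcard h1 h2 k hd
        exact ⟨I, hI.trans (erase_subset _ _), hI1, hI2, hIk⟩
      · push Not at hd
        obtain ⟨A, hA, hAk⟩ := hd
        by_cases hc : ∀ B ⊆ E.erase e, k - 1 ≤ (r1 (insert e B) - 1) + (r2 (insert e (E.erase e \ B)) - 1)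
        · obtain ⟨I, hI, hI1, hI2, hIk⟩ := ih (E.erase e) (fun X => r1 (insert e X) - 1)
            (fun X => r2 (insert e X) - 1) hcard (h1.contract e he1) (h2.contract e he2) (k - 1) hc
          have heI : e ∉ I := fun h => by
            have := hI h
            simp at this
          have p1 := h1.pos e he1 I
          have p2 := h2.pos e he2 I
          refine ⟨insert e I, ?_, ?_, ?_, ?_⟩
          · intro x hx
            rcases mem_insert.1 hx with rfl | hx
            · exact heE
            · exact erase_subset _ _ (hI hx)
          · rw [card_insert_of_notMem heI]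
            omega
          · rw [card_insert_of_notMem heI]
            omega
          · rw [card_insert_of_notMem heI]
            omega
        · exfalso
          push Not at hc
          obtain ⟨B, hB, hBk⟩ := hc
          have heA : e ∉ A := fun h => by
            have := hA h
            simp at this
          have heB : e ∉ B := fun h => by
            have := hB h
            simp at this
          have s1 := h1.sub A (insert e B)
          have s2 := h2.sub (E.erase e \ A) (insert e (E.erase e \ B))
          have e1 : A ∩ insert e B = A ∩ B := by
            ext x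
            simp only [mem_inter, mem_insert]
            constructor
            · rintro ⟨hx, rfl | hx'⟩
              · exact absurd hx heA
              · exact ⟨hx, hx'⟩
            · rintro ⟨hx, hx'⟩
              exact ⟨hx, Or.inr hx'⟩
          have e2 : (E.erase e \ A) ∪ (insert e (E.erase e \ B)) = E \ (A ∩ B) := by
            ext x
            simp only [mem_union, mem_sdiff, mem_erase, mem_insert, mem_inter]
            by_cases hxe : x = e
            · subst hxe
              simp [heE, heA]
            · simp only [ne_eq, hxe, not_false_eq_true, true_and, false_or]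
              tauto
          have e3 : (E.erase e \ A) ∩ (insert e (E.erase e \ B)) = E \ (A ∪ insert e B) := by
            ext x
            simp only [mem_union, mem_sdiff, mem_erase, mem_insert, mem_inter]
            by_cases hxe : x = e
            · subst hxe
              simp
            · simp only [ne_eq, hxe, not_false_eq_true, true_and, false_or]
              tauto
          rw [e1] at s1
          rw [e2, e3] at s2
          have k1 := hk (A ∪ insert e B) (by
            intro x hx
            rcases mem_union.1 hx with hx | hx
            · exact erase_subset _ _ (hA hx)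
            · rcases mem_insert.1 hx with rfl | hx
              · exact heE
              · exact erase_subset _ _ (hB hx))
          have k2 := hk (A ∩ B) (fun x hx => erase_subset _ _ (hA (mem_inter.1 hx).1))
          have p1 := h1.pos e he1 B
          have p2 := h2.pos e he2 (E.erase e \ B)
          omega
    · push Not at hex
      refine ⟨∅, empty_subset _, h1.empty, h2.empty, ?_⟩
      have hle : ∀ (r : Finset α → ℕ), IsRF r → ∀ e, r {e} ≤ 1 := by
        intro r hr e
        have := hr.ins e ∅
        rw [hr.empty, insert_empty_eq] at this
        omega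
      have hA := hk (E.filter (fun e => r1 {e} = 0)) (filter_subset _ _)
      have z1 : r1 (E.filter (fun e => r1 {e} = 0)) = 0 :=
        h1.zero _ (fun e he => (mem_filter.1 he).2)
      have z2 : r2 (E \ E.filter (fun e => r1 {e} = 0)) = 0 := by
        apply h2.zero
        intro e he
        rw [mem_sdiff, mem_filter] at he
        have h3 : r1 {e} ≠ 0 := fun h => he.2 ⟨he.1, h⟩
        have h4 := hle r1 h1 e
        have h5 := hle r2 h2 e
        have h6 := hex e he.1 (by omega)
        omega
      rw [z1, z2] at hA
      simpa using hA

end Pool.Agent.H478R3.Borsuk
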