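import Mathlib
import Pool.Agent.H478R3.Borsuk.Inter

set_option autoImplicit false

/-! Every matroid with at least two bases has the Borsuk property. -/

namespace Pool.Agent.H478R3.Borsuk

variable {n : ℕ}

noncomputable def rkf (M : Matroid (Fin n)) (X : Finset (Fin n)) : ℕ :=
  (M.eRk (X : Set (Fin n))).toNat

theorem coe_rkf (M : Matroid (Fin n)) (X : Finset (Fin n)) :
    ((rkf M X : ℕ) : ℕ∞) = M.eRk (X : Set (Fin n)) := by
  unfold rkf
  apply ENat.coe_toNat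
  have h := M.eRk_le_encard (X : Set (Fin n))
  intro htop
  rw [htop, Set.encard_coe_eq_coe_finsetCard, top_le_iff] at h
  exact absurd h (ENat.coe_ne_top _)

theorem rkf_RF (M : Matroid (Fin n)) : IsRF (rkf M) where
  empty := by
    have h := coe_rkf M ∅
    rw [Finset.coe_empty, M.eRk_empty] at h
    exact_mod_cast h
  mono := by
    intro A B hAB
    have h : M.eRk (A : Set (Fin n)) ≤ M.eRk (B : Set (Fin n)) := M.eRk_mono (by exact_mod_cast hAB)
    rw [← coe_rkf, ← coe_rkf] at h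
    exact_mod_cast h
  ins := by
    intro e A
    have h := M.eRk_insert_le_add_one e (A : Set (Fin n))
    rw [← Finset.coe_insert, ← coe_rkf, ← coe_rkf] at h
    exact_mod_cast h
  sub := by
    intro A B
    have h := M.eRk_inter_add_eRk_union_le (A : Set (Fin n)) (B : Set (Fin n))
    rw [← Finset.coe_inter, ← Finset.coe_union, ← coe_rkf, ← coe_rkf, ← coe_rkf, ← coe_rkf] at h
    have h' : rkf M (A ∩ B) + rkf M (A ∪ B) ≤ rkf M A + rkf M B := by exact_mod_cast h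
    omega

theorem indep_of_rkf (M : Matroid (Fin n)) (X : Finset (Fin n)) (h : rkf M X = X.card) :
    M.Indep (X : Set (Fin n)) := by
  rw [M.indep_iff_eRk_eq_encard_of_finite X.finite_toSet, ← coe_rkf, h,
    Set.encard_coe_eq_coe_finsetCard]

/-- rank of a set, as a natural number -/
noncomputable def rks (M : Matroid (Fin n)) (X : Set (Fin n)) : ℕ := (M.eRk X).toNat

theorem ncard_le_rks (M : Matroid (Fin n)) (I X : Set (Fin n)) (hI : M.Indep I) (hIX : I ⊆ X) :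
    I.ncard ≤ rks M X := by
  have h := hI.encard_le_eRk_of_subset hIX
  have h1 : M.eRk X ≠ ⊤ := by
    intro htop
    have h2 := M.eRk_le_encard X
    rw [htop, top_le_iff, Set.encard_eq_top_iff] at h2
    exact h2 (Set.toFinite X)
  have h3 : ((rks M X : ℕ) : ℕ∞) = M.eRk X := ENat.coe_toNat h1
  rw [← h3, ← (Set.toFinite I).cast_ncard_eq] at h
  exact_mod_cast h

theorem exists_A (M : Matroid (Fin n)) : ∃ A C₁ C₂ : Set (Fin n), M.IsBase C₁ ∧ M.IsBase C₂ ∧
    rks M A + rks M✶ Aᶜ ≤ (C₁ \ C₂).ncard := by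
  classical
  obtain ⟨A, -, hA⟩ := Finset.exists_min_image (Finset.univ : Finset (Finset (Fin n)))
    (fun A => rkf M A + rkf M✶ (Finset.univ \ A)) ⟨∅, Finset.mem_univ _⟩
  obtain ⟨I, -, hI1, hI2, hIk⟩ := inter _ (Finset.univ : Finset (Fin n)) (rkf M) (rkf M✶) rfl
    (rkf_RF M) (rkf_RF M✶) (rkf M A + rkf M✶ (Finset.univ \ A))
    (fun B _ => hA B (Finset.mem_univ _))
  have i1 := indep_of_rkf M I hI1
  have i2 := indep_of_rkf M✶ I hI2
  obtain ⟨C₁, hC₁, hIC⟩ := i1.exists_isBase_superset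
  obtain ⟨D, hD, hID⟩ := i2.exists_isBase_superset
  have hC₂ : M.IsBase (M.E \ D) := by
    have := hD.compl_isBase_dual
    rwa [Matroid.dual_dual, Matroid.dual_ground] at this
  refine ⟨(A : Set (Fin n)), C₁, M.E \ D, hC₁, hC₂, ?_⟩
  have h1 : (I : Set (Fin n)) ⊆ C₁ \ (M.E \ D) := by
    intro x hx
    exact ⟨hIC hx, fun h => h.2 (hID hx)⟩
  have h2 := Set.ncard_le_ncard h1 (Set.toFinite _)
  rw [Set.ncard_coe_finset] at h2
  have h3 : rks M✶ ((A : Set (Fin n))ᶜ) = rkf M✶ (Finset.univ \ A) := by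
    unfold rks rkf
    congr 2
    ext x
    simp
  rw [h3]
  exact le_trans hIk h2

/-- the structure of the pairs of bases at the maximal distance -/
theorem opt_struct (M : Matroid (Fin n)) (A : Set (Fin n)) (B₁ B₂ : Set (Fin n))
    (h₁ : M.IsBase B₁) (h₂ : M.IsBase B₂) (hk : rks M A + rks M✶ Aᶜ ≤ (B₁ \ B₂).ncard) :
    (B₁ ∩ A).ncard = rks M A ∧ Disjoint (A ∩ B₁) (A ∩ B₂) ∧
      (∀ x ∈ M.E, x ∉ A → x ∉ B₂ → x ∈ B₁) := by
  have hJ1 : M.Indep (B₁ \ B₂) := h₁.indep.subset Set.diff_subset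
  have hD2 : M✶.IsBase (M.E \ B₂) := h₂.compl_isBase_dual
  have hsub : B₁ \ B₂ ⊆ M.E \ B₂ := Set.diff_subset_diff_left h₁.subset_ground
  have hJ2 : M✶.Indep (B₁ \ B₂) := hD2.indep.subset hsub
  have e1 : ((B₁ \ B₂) ∩ A).ncard ≤ rks M A :=
    ncard_le_rks M _ _ (hJ1.subset Set.inter_subset_left) Set.inter_subset_right
  have e2 : ((B₁ \ B₂) \ A).ncard ≤ rks M✶ Aᶜ :=
    ncard_le_rks M✶ _ _ (hJ2.subset Set.diff_subset) (fun x hx => hx.2)
  have e3 : ((B₁ \ B₂) ∩ A).ncard + ((B₁ \ B₂) \ A).ncard = (B₁ \ B₂).ncard :=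
    Set.ncard_inter_add_ncard_diff_eq_ncard _ _ (Set.toFinite _)
  have e4 : (B₁ ∩ A).ncard ≤ rks M A :=
    ncard_le_rks M _ _ (h₁.indep.subset Set.inter_subset_left) Set.inter_subset_right
  have e5 : ((M.E \ B₂) \ A).ncard ≤ rks M✶ Aᶜ :=
    ncard_le_rks M✶ _ _ (hD2.indep.subset Set.diff_subset) (fun x hx => hx.2)
  have f1 : (B₁ \ B₂) ∩ A = B₁ ∩ A := by
    apply Set.eq_of_subset_of_ncard_le
    · exact Set.inter_subset_inter_left _ Set.diff_subset
    · omega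
    · exact Set.toFinite _
  have f2 : (B₁ \ B₂) \ A = (M.E \ B₂) \ A := by
    apply Set.eq_of_subset_of_ncard_le
    · exact Set.diff_subset_diff_left hsub
    · omega
    · exact Set.toFinite _
  refine ⟨?_, ?_, ?_⟩
  · rw [← f1]
    omega
  · rw [Set.disjoint_left]
    rintro x ⟨hxA, hx1⟩ ⟨-, hx2⟩
    have : x ∈ (B₁ \ B₂) ∩ A := by
      rw [f1]
      exact ⟨hx1, hxA⟩
    exact this.1.2 hx2
  · intro x hxE hxA hx2
    have : x ∈ (B₁ \ B₂) \ A := by
      rw [f2]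
      exact ⟨⟨hxE, hx2⟩, hxA⟩
    exact this.1.1

/-- the colour of a set with respect to `T` -/
noncomputable def col (T B : Set (Fin n)) : ℕ := {x ∈ T | ∀ y ∈ T ∩ B, x < y}.ncard

theorem col_lt (T B₁ B₂ : Set (Fin n)) (m₁ : Fin n) (h1 : m₁ ∈ T ∩ B₁)
    (h1' : ∀ y ∈ T ∩ B₁, m₁ ≤ y) (h2 : ∀ y ∈ T ∩ B₂, m₁ < y) : col T B₁ < col T B₂ := by
  unfold col
  apply Set.ncard_lt_ncard
  · rw [Set.ssubset_iff_of_subset]
    · exact ⟨m₁, ⟨h1.1, h2⟩, fun h => lt_irrefl _ (h.2 m₁ h1)⟩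
    · rintro x ⟨hxT, hx⟩
      exact ⟨hxT, fun y hy => (hx m₁ h1).trans (h2 y hy)⟩
  · exact Set.toFinite _

theorem col_ne (T B₁ B₂ : Set (Fin n)) (h1 : (T ∩ B₁).Nonempty) (h2 : (T ∩ B₂).Nonempty)
    (hd : Disjoint (T ∩ B₁) (T ∩ B₂)) : col T B₁ ≠ col T B₂ := by
  obtain ⟨m₁, hm₁, h1'⟩ := Set.exists_min_image (T ∩ B₁) id (Set.toFinite _) h1
  obtain ⟨m₂, hm₂, h2'⟩ := Set.exists_min_image (T ∩ B₂) id (Set.toFinite _) h2
  simp only [id] at h1' h2'
  have hne : m₁ ≠ m₂ := by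
    rintro rfl
    exact Set.disjoint_left.1 hd hm₁ hm₂
  rcases lt_or_gt_of_ne hne with h | h
  · exact (col_lt T B₁ B₂ m₁ hm₁ h1' (fun y hy => h.trans_le (h2' y hy))).ne
  · exact (col_lt T B₂ B₁ m₂ hm₂ h2' (fun y hy => h.trans_le (h1' y hy))).ne'

theorem col_le (T B : Set (Fin n)) : col T B ≤ (T \ B).ncard := by
  unfold col
  apply Set.ncard_le_ncard _ (Set.toFinite _)
  rintro x ⟨hxT, hx⟩
  exact ⟨hxT, fun hxB => lt_irrefl _ (hx x ⟨hxT, hxB⟩)⟩

/-- the dimension of the base polytope -/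
noncomputable def dimP (M : Matroid (Fin n)) : ℕ := Module.finrank ℝ
  (affineSpan ℝ ((fun B : Set (Fin n) => B.indicator (fun _ : Fin n => (1 : ℝ))) ''
    {B : Set (Fin n) | M.IsBase B})).direction

theorem dim_ge (M : Matroid (Fin n)) (B : Set (Fin n)) (hB : M.IsBase B) (S : Set (Fin n))
    (h : ∀ x ∈ S, ∃ B', M.IsBase B' ∧ ∀ x' ∈ S, ((x' ∈ B' ↔ x' ∈ B) ↔ x' ≠ x)) :
    S.ncard ≤ dimP M := by
  classical
  choose g hg hg' using h
  let v : S → (Fin n → ℝ) := fun x => (g x.1 x.2).indicator (fun _ => (1 : ℝ)) -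
    B.indicator (fun _ => (1 : ℝ))
  have hmem : ∀ x, v x ∈ (affineSpan ℝ ((fun B : Set (Fin n) => B.indicator
      (fun _ : Fin n => (1 : ℝ))) '' {B : Set (Fin n) | M.IsBase B})).direction := by
    intro x
    apply AffineSubspace.vsub_mem_direction
    · exact mem_affineSpan ℝ ⟨_, hg x.1 x.2, rfl⟩
    · exact mem_affineSpan ℝ ⟨_, hB, rfl⟩
  have hval : ∀ x x' : S, x' ≠ x → v x x'.1 = 0 := by
    intro x x' hne
    have h1 := (hg' x.1 x.2 x'.1 x'.2).2 (fun h => hne (Subtype.ext h))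
    show (g x.1 x.2).indicator (fun _ => (1 : ℝ)) x'.1 - B.indicator (fun _ => (1 : ℝ)) x'.1 = 0
    by_cases h2 : x'.1 ∈ B
    · rw [Set.indicator_of_mem h2, Set.indicator_of_mem (h1.2 h2)]
      norm_num
    · rw [Set.indicator_of_notMem h2, Set.indicator_of_notMem (fun h3 => h2 (h1.1 h3))]
      norm_num
  have hval' : ∀ x : S, v x x.1 ≠ 0 := by
    intro x
    have h1 : ¬ (x.1 ∈ g x.1 x.2 ↔ x.1 ∈ B) := fun h => (hg' x.1 x.2 x.1 x.2).1 h rfl
    show (g x.1 x.2).indicator (fun _ => (1 : ℝ)) x.1 - B.indicator (fun _ => (1 : ℝ)) x.1 ≠ 0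
    by_cases h2 : x.1 ∈ B
    · have h3 : x.1 ∉ g x.1 x.2 := fun h3 => h1 ⟨fun _ => h2, fun _ => h3⟩
      rw [Set.indicator_of_mem h2, Set.indicator_of_notMem h3]
      norm_num
    · have h3 : x.1 ∈ g x.1 x.2 := by
        by_contra h3
        exact h1 ⟨fun h => absurd h h3, fun h => absurd h h2⟩
      rw [Set.indicator_of_notMem h2, Set.indicator_of_mem h3]
      norm_num
  have hli : LinearIndependent ℝ v := by
    rw [Fintype.linearIndependent_iff]
    intro c hc x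
    have h1 := congrFun hc x.1
    rw [Finset.sum_apply, Finset.sum_eq_single x] at h1
    · rw [Pi.smul_apply, smul_eq_mul, Pi.zero_apply] at h1
      exact (mul_eq_zero.1 h1).resolve_right (hval' x)
    · intro y _ hy
      rw [Pi.smul_apply, hval y x (Ne.symm hy), smul_zero]
    · intro h
      exact absurd (Finset.mem_univ _) h
  let w : S → (affineSpan ℝ ((fun B : Set (Fin n) => B.indicator
      (fun _ : Fin n => (1 : ℝ))) '' {B : Set (Fin n) | M.IsBase B})).direction :=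
    fun x => ⟨v x, hmem x⟩
  have hliw : LinearIndependent ℝ w := by
    apply LinearIndependent.of_comp (Submodule.subtype _)
    exact hli
  have h4 := hliw.fintype_card_le_finrank
  rw [← Nat.card_eq_fintype_card, Nat.card_coe_set_eq] at h4
  exact h4

/-- elements outside a base -/
theorem dim_ge_outside (M : Matroid (Fin n)) (B : Set (Fin n)) (hB : M.IsBase B)
    (S : Set (Fin n)) (hS : ∀ x ∈ S, M.IsNonloop x ∧ x ∉ B) : S.ncard ≤ dimP M := by
  apply dim_ge M B hB S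
  intro x hx
  obtain ⟨B', hB', h1, h2⟩ := (hS x hx).1.indep.exists_isBase_subset_union_isBase hB
  refine ⟨B', hB', fun x' hx' => ?_⟩
  have h3 := (hS x' hx').2
  constructor
  · rintro h rfl
    exact h3 (h.1 (h1 rfl))
  · intro hne
    constructor
    · intro h4
      rcases h2 h4 with h5 | h5
      · exact absurd h5 hne
      · exact h5
    · intro h4
      exact absurd h4 h3

/-- elements inside a base -/
theorem dim_ge_inside (M : Matroid (Fin n)) (B : Set (Fin n)) (hB : M.IsBase B)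
    (S : Set (Fin n)) (hS : ∀ x ∈ S, M✶.IsNonloop x ∧ x ∈ B) : S.ncard ≤ dimP M := by
  apply dim_ge M B hB S
  intro x hx
  obtain ⟨D, hD, h1, h2⟩ :=
    (hS x hx).1.indep.exists_isBase_subset_union_isBase hB.compl_isBase_dual
  have hB' : M.IsBase (M.E \ D) := by
    have := hD.compl_isBase_dual
    rwa [Matroid.dual_dual, Matroid.dual_ground] at this
  refine ⟨M.E \ D, hB', fun x' hx' => ?_⟩
  have h3 := (hS x' hx').2
  constructor
  · rintro h rfl
    exact (h.2 h3).2 (h1 rfl)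
  · intro hne
    constructor
    · intro _
      exact h3
    · intro _
      refine ⟨hB.subset_ground h3, fun h4 => ?_⟩
      rcases h2 h4 with h5 | h5
      · exact hne h5
      · exact h5.2 h3

theorem diff_comm' (M : Matroid (Fin n)) (B₁ B₂ : Set (Fin n)) (h₁ : M.IsBase B₁)
    (h₂ : M.IsBase B₂) : (B₁ \ B₂).ncard = (B₂ \ B₁).ncard := by
  have h := h₁.encard_sdiff_comm h₂
  unfold Set.ncard
  rw [h]

theorem symm_card (M : Matroid (Fin n)) (B₁ B₂ : Set (Fin n)) (h₁ : M.IsBase B₁)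
    (h₂ : M.IsBase B₂) : (symmDiff B₁ B₂).ncard = 2 * (B₁ \ B₂).ncard := by
  rw [Set.symmDiff_def, Set.ncard_union_eq (by
    rw [Set.disjoint_left]
    rintro x ⟨_, h⟩ ⟨h', _⟩
    exact h h') (Set.toFinite _) (Set.toFinite _), ← diff_comm' M B₁ B₂ h₁ h₂]
  ring

theorem main (M : Matroid (Fin n))
    (hM : ∃ B₁ B₂ : Set (Fin n), M.IsBase B₁ ∧ M.IsBase B₂ ∧ B₁ ≠ B₂) :
    ∃ f : Set (Fin n) → Fin (dimP M + 1),
      ∀ B₁ B₂ : Set (Fin n), M.IsBase B₁ → M.IsBase B₂ → f B₁ = f B₂ →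
          ∃ C₁ C₂ : Set (Fin n), M.IsBase C₁ ∧ M.IsBase C₂ ∧
            (symmDiff B₁ B₂).ncard < (symmDiff C₁ C₂).ncard := by
  classical
  obtain ⟨A, C₁, C₂, hC₁, hC₂, hk⟩ := exists_A M
  set k := rks M A + rks M✶ Aᶜ with hkdef
  -- a colouring which separates the pairs at the maximal distance suffices
  suffices hcol : ∃ f : Set (Fin n) → Fin (dimP M + 1),
      ∀ B₁ B₂ : Set (Fin n), M.IsBase B₁ → M.IsBase B₂ → B₁ ≠ B₂ → k ≤ (B₁ \ B₂).ncard →
        f B₁ ≠ f B₂ by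
    obtain ⟨f, hf⟩ := hcol
    refine ⟨f, fun B₁ B₂ h₁ h₂ hfe => ?_⟩
    by_cases hlt : (B₁ \ B₂).ncard < (C₁ \ C₂).ncard
    · refine ⟨C₁, C₂, hC₁, hC₂, ?_⟩
      rw [symm_card M _ _ h₁ h₂, symm_card M _ _ hC₁ hC₂]
      omega
    · by_cases hne : B₁ = B₂
      · subst hne
        obtain ⟨D₁, D₂, hD₁, hD₂, hD⟩ := hM
        refine ⟨D₁, D₂, hD₁, hD₂, ?_⟩
        rw [symmDiff_self, Set.bot_eq_empty, Set.ncard_empty, Set.ncard_pos (Set.toFinite _)]
        rw [Set.nonempty_iff_ne_empty, ← Set.bot_eq_empty, Ne, symmDiff_eq_bot]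
        exact hD
      · exact absurd hfe (hf B₁ B₂ h₁ h₂ hne (by omega))
  by_cases hA : rks M A = 0
  · -- colouring by the first element outside
    let T : Set (Fin n) := {x | x ∈ M.E ∧ x ∉ A ∧ M✶.IsNonloop x}
    have hbound : ∀ B, M.IsBase B → col T (M.E \ B) ≤ dimP M := by
      intro B hB
      refine (col_le _ _).trans (dim_ge_inside M B hB _ ?_)
      rintro x ⟨⟨hxE, hxA, hxn⟩, hx⟩
      refine ⟨hxn, ?_⟩
      by_contra hxB
      exact hx ⟨hxE, hxB⟩
    refine ⟨fun B => if h : M.IsBase B then ⟨col T (M.E \ B), Nat.lt_succ_of_le (hbound B h)⟩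
      else 0, ?_⟩
    intro B₁ B₂ h₁ h₂ hne hkB
    simp only [dif_pos h₁, dif_pos h₂, ne_eq, Fin.mk.injEq]
    have hnon : ∀ B B', M.IsBase B → M.IsBase B' → B ≠ B' → (T ∩ (M.E \ B)).Nonempty := by
      intro B B' hB hB' hBB
      have : ∃ x, x ∈ B' ∧ x ∉ B := by
        by_contra hcon
        push Not at hcon
        exact hBB (hB'.eq_of_subset_isBase hB hcon).symm
      obtain ⟨x, hxB', hxB⟩ := this
      have hxE := hB'.subset_ground hxB'
      refine ⟨x, ⟨hxE, ?_, ?_⟩, hxE, hxB⟩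
      · intro hxA
        have h5 := ncard_le_rks M {x} A (hB'.indep.subset (by simpa using hxB')) (by simpa using hxA)
        rw [Set.ncard_singleton] at h5
        omega
      · rw [← Matroid.indep_singleton]
        exact hB.compl_isBase_dual.indep.subset (by simpa using ⟨hxE, hxB⟩)
    apply col_ne
    · exact hnon B₁ B₂ h₁ h₂ hne
    · exact hnon B₂ B₁ h₂ h₁ (Ne.symm hne)
    · rw [Set.disjoint_left]
      rintro x ⟨⟨hxE, hxA, _⟩, hx1⟩ ⟨_, hx2⟩
      exact hx1.2 ((opt_struct M A B₁ B₂ h₁ h₂ hkB).2.2 x hxE hxA hx2.2)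
  · -- colouring by the first element inside
    let T : Set (Fin n) := {x | x ∈ A ∧ M.IsNonloop x}
    have hbound : ∀ B, M.IsBase B → col T B ≤ dimP M := by
      intro B hB
      refine (col_le _ _).trans (dim_ge_outside M B hB _ ?_)
      rintro x ⟨⟨hxA, hxn⟩, hx⟩
      exact ⟨hxn, hx⟩
    refine ⟨fun B => if h : M.IsBase B then ⟨col T B, Nat.lt_succ_of_le (hbound B h)⟩
      else 0, ?_⟩
    intro B₁ B₂ h₁ h₂ hne hkB
    simp only [dif_pos h₁, dif_pos h₂, ne_eq, Fin.mk.injEq]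
    have hnon : ∀ B B', M.IsBase B → M.IsBase B' → k ≤ (B \ B').ncard → (T ∩ B).Nonempty := by
      intro B B' hB hB' hBB
      have h5 := (opt_struct M A B B' hB hB' hBB).1
      have h6 : (B ∩ A).Nonempty := by
        rw [← Set.ncard_pos (Set.toFinite _), h5]
        omega
      obtain ⟨x, hxB, hxA⟩ := h6
      exact ⟨x, ⟨hxA, hB.indep.isNonloop_of_mem hxB⟩, hxB⟩
    have hdis := (opt_struct M A B₁ B₂ h₁ h₂ hkB).2.1
    apply col_ne
    · exact hnon B₁ B₂ h₁ h₂ hkB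
    · exact hnon B₂ B₁ h₂ h₁ (by rw [diff_comm' M B₂ B₁ h₂ h₁]; exact hkB)
    · rw [Set.disjoint_left]
      rintro x ⟨⟨hxA, _⟩, hx1⟩ ⟨_, hx2⟩
      exact Set.disjoint_left.1 hdis ⟨hxA, hx1⟩ ⟨hxA, hx2⟩

end Pool.Agent.H478R3.Borsuk
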